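import Pool.Agent.K4.E

set_option autoImplicit false

namespace Pool.Agent.Results.MP_00c2e7_nt.ExponentGap

/-- Let `k = 2 ^ a * m` with `m > 1` odd be such that `k ^ 4 - 1` divides `2 ^ k - 1`. Then, for
every `n` with `2 ≤ n ≤ a - 2`, the exponent `a` is not close to a multiple of `2 ^ n * m`. -/
theorem result (k a m : ℕ) (h : k ^ 4 - 1 ∣ 2 ^ k - 1) (hkm : k = 2 ^ a * m) (hm : Odd m)
    (hm1 : m ≠ 1) (n : ℕ) (hn : 2 ≤ n) (hna : n + 2 ≤ a) (r : ℕ) :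
    (a ≡ r [MOD 2 ^ n * m] → 2 ^ (n + 2) ≤ 2 ^ r * m) ∧
      (a + r ≡ 0 [MOD 2 ^ n * m] → 2 ^ (n + 2) ≤ max (2 ^ r) m) := by
  subst hkm
  exact Pool.K4.gap hm hm1 hn hna h r

end Pool.Agent.Results.MP_00c2e7_nt.ExponentGap
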