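import Pool.Agent.K4.D

set_option autoImplicit false

namespace Pool.Agent.Results.MP_00c2e7_nt.OddPart

/-- If `k ^ 4 - 1` divides `2 ^ k - 1` and the largest odd divisor of `k > 1` is less than 319,
then `k = 2 ^ (2 ^ n)` with `n ≥ 2`. -/
theorem result (k : ℕ) (hk : 1 < k) (h : k ^ 4 - 1 ∣ 2 ^ k - 1) (a m : ℕ) (hm : Odd m)
    (hkm : k = 2 ^ a * m) (hM : m < 319) : ∃ n : ℕ, 2 ≤ n ∧ k = 2 ^ (2 ^ n) := by
  subst hkm
  rcases Nat.lt_or_ge m 3 with h3 | h3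
  · have h1 : m = 1 := by
      obtain ⟨i, rfl⟩ := hm
      omega
    subst h1
    rw [mul_one] at h hk ⊢
    exact Pool.K4.pow_two hk h
  · exact absurd h (Pool.K4.no_odd_part hm h3 hM a)

end Pool.Agent.Results.MP_00c2e7_nt.OddPart
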